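import Pool.Agent.helper69.SN.SpecB

/-!
# Row sn:bCLS: elementary closure properties of the class
-/

open scoped Pointwise ContDiff
open MeasureTheory Set Filter Topology

namespace Pool.Agent.helper69.SN

open Pool.Agent.helper83.SC

/-- members of the class are convex. -/
theorem bCLS_convex {m n : ℕ} (B : E m → Fin n → Mat m) (κ : E m → ℝ) (h : Cls B κ) : CV κ := by
  refine ⟨convex_univ, ?_⟩
  intro x _ y _ a b ha hb hab
  have key : ∀ ε : ℝ, 0 < ε → κ (a • x + b • y) ≤ (a • κ x + b • κ y) + ε := by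
    intro ε hε
    obtain ⟨κ', hs, hc, -⟩ := h (max ‖a • x + b • y‖ (max ‖x‖ ‖y‖)) (ε / 2) (by positivity)
    have h1 := abs_le.1 (hc (a • x + b • y) (le_max_left _ _))
    have h2 := abs_le.1 (hc x ((le_max_left _ _).trans (le_max_right _ _)))
    have h3 := abs_le.1 (hc y ((le_max_right _ _).trans (le_max_right _ _)))
    have h4 := hs.2.2 (mem_univ x) (mem_univ y) ha hb hab
    simp only [smul_eq_mul] at h4 ⊢
    have h5 : a * κ' x ≤ a * (κ x + ε / 2) := mul_le_mul_of_nonneg_left (by linarith [h2.2]) ha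
    have h6 : b * κ' y ≤ b * (κ y + ε / 2) := mul_le_mul_of_nonneg_left (by linarith [h3.2]) hb
    have h7 : a * (ε / 2) + b * (ε / 2) = ε / 2 := by rw [← add_mul, hab, one_mul]
    nlinarith [h1.1]
  exact le_of_forall_pos_le_add key

theorem bCLS_of (hP : hess_psd_stmt) (hA : hess_add_stmt) (hCLO : aCLO_stmt) : bCLS_stmt := by
  intro m n B hB
  refine ⟨?_, ?_, ?_, ?_, ?_⟩
  · intro κ hκ h R ε hε
    exact ⟨κ, hκ, fun x _ => by rw [sub_self, abs_zero]; exact hε.le, fun x _ => h x⟩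
  · intro κ h
    have hcv := bCLS_convex B κ h
    exact ⟨hcv, (ConvexOn.locallyLipschitz hcv).continuous⟩
  · intro κ q h hq R ε hε
    obtain ⟨κ', hs, hc, hG⟩ := h R ε hε
    refine ⟨fun x => κ' x + q x, ⟨hs.1.add hq.1, hs.2.add hq.2⟩, ?_, ?_⟩
    · intro x hx
      have e : κ' x + q x - (κ x + q x) = κ' x - κ x := by ring
      rw [e]
      exact hc x hx
    · intro x hx
      rw [hA hs.1 hq.1 x]
      have e : hess κ' x + hess q x - ∑ i, B x i = (hess κ' x - ∑ i, B x i) + hess q x := by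
        abel
      rw [e]
      exact (hCLO (B x) (hB x)).2.1 _ _ (hG x hx) (hP hq.1 hq.2 x)
  · intro f h R ε hε
    obtain ⟨κ, hκ, h1⟩ := h R (ε / 2) (by positivity)
    obtain ⟨κ', hs, hc, hG⟩ := hκ R (ε / 2) (by positivity)
    refine ⟨κ', hs, fun x hx => ?_, hG⟩
    have e : κ' x - f x = (κ' x - κ x) + (κ x - f x) := by ring
    rw [e]
    calc |κ' x - κ x + (κ x - f x)| ≤ |κ' x - κ x| + |κ x - f x| := abs_add_le _ _
      _ ≤ ε := by linarith [h1 x hx, hc x hx]
  · intro κ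
    constructor
    · intro h R ε hε
      obtain ⟨κ', hs, hc, hG⟩ := h R ε hε
      exact ⟨κ', hs, hc, fun x hx _ => hG x hx⟩
    · intro h R ε hε
      obtain ⟨κ', hs, hc, hG⟩ := h R ε hε
      exact ⟨κ', hs, hc, fun x hx => hG x hx (mem_univ x)⟩

end Pool.Agent.helper69.SN
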